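import Mathlib
import Pool.Agent.Run7.h523.FT.All

set_option autoImplicit false

/-!
# MP_850839_an: the Kakeya inequality for `δ`-tubes whose axes form wave fronts

Let `u` be a unit vector.  A family of unit segments `{b i + s • e i : |s| ≤ 1/2}` with unit directions
`e i`, `⟪u, e i⟫ > 0`, is a *front family* (at locality scale `ρ`) if for two segments making the same
angle with `u`, whose directions are at distance `≤ ρ`, any two points `p`, `q` of the two segments at
distance `≤ ρ` satisfy `|⟪u, p - q⟫| ≤ ⟪u, e i⟫ * ‖p - q‖`: the segments of a given inclination are locally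
the rays of one wave front, no point of a ray being reached earlier along another one.
-/

open Set MeasureTheory
open scoped InnerProductSpace ENNReal

namespace Pool.Agent.Results.MP_850839_an.FrontTubes

/-- The cylinder of length `1` and radius `r` with axis direction `e`, centred at `b`. -/
def tube {n : ℕ} (r : ℝ) (b e : EuclideanSpace ℝ (Fin n)) : Set (EuclideanSpace ℝ (Fin n)) :=
  {y | |⟪y - b, e⟫_ℝ| ≤ 1 / 2 ∧ ‖(y - b) - ⟪y - b, e⟫_ℝ • e‖ ≤ r}

/-- Front families of `N` unit segments with centres `b i` and `δ`-separated directions `e i`. -/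
structure IsFrontFamily {n N : ℕ} (ρ δ : ℝ) (u : EuclideanSpace ℝ (Fin n))
    (b e : Fin N → EuclideanSpace ℝ (Fin n)) : Prop where
  norm_axis : ‖u‖ = 1
  norm_dir : ∀ i, ‖e i‖ = 1
  inner_pos : ∀ i, 0 < ⟪u, e i⟫_ℝ
  separated : ∀ i j, i ≠ j → δ ≤ ‖e i - e j‖
  /-- two inclinations are equal or at least `δ` apart -/
  levels : ∀ i j, ⟪u, e i⟫_ℝ = ⟪u, e j⟫_ℝ ∨
    δ ≤ |InnerProductGeometry.angle u (e i) - InnerProductGeometry.angle u (e j)|
  /-- the local front condition inside each level -/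
  front : ∀ i j, ⟪u, e i⟫_ℝ = ⟪u, e j⟫_ℝ → ‖e i - e j‖ ≤ ρ →
    ∀ s ∈ Icc (-1 / 2 : ℝ) (1 / 2), ∀ s' ∈ Icc (-1 / 2 : ℝ) (1 / 2),
      ‖(b i + s • e i) - (b j + s' • e j)‖ ≤ ρ →
      |⟪u, (b i + s • e i) - (b j + s' • e j)⟫_ℝ| ≤
        ⟪u, e i⟫_ℝ * ‖(b i + s • e i) - (b j + s' • e j)‖

/-- The inequality of Q1 for front families: for `n ≥ 3`, `q > n/(n-1)` and `ρ, K > 0` there is a
constant `C` such that for all `0 < δ ≤ 1` the tubes of radius `K * δ` around any front family satisfy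
`‖∑ 1_T‖_q ≤ C * δ^((n-1)/q) * N^(1 - 1/(q(n-1)))`. -/
theorem result {n : ℕ} (hn : 3 ≤ n) {q ρ K : ℝ} (hq : (n : ℝ) / (n - 1) < q) (hρ : 0 < ρ) :
    ∃ C : ℝ, 0 < C ∧ ∀ (δ : ℝ), 0 < δ → δ ≤ 1 →
      ∀ (N : ℕ) (u : EuclideanSpace ℝ (Fin n)) (b e : Fin N → EuclideanSpace ℝ (Fin n)),
        IsFrontFamily ρ δ u b e →
        eLpNorm (fun y => ∑ i, (tube (K * δ) (b i) (e i)).indicator (fun _ => (1 : ℝ)) y)
            (ENNReal.ofReal q) volume ≤
          ENNReal.ofReal (C * δ ^ (((n : ℝ) - 1) / q) * (N : ℝ) ^ (1 - 1 / (q * ((n : ℝ) - 1)))) := by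
  obtain ⟨d, rfl⟩ : ∃ d, n = d + 1 := ⟨n - 1, by omega⟩
  have hd : ((d + 1 : ℕ) : ℝ) - 1 = d := by push_cast; ring
  rw [hd] at hq ⊢
  obtain ⟨C, hC, h⟩ := Run7.h523.FT.main_all (d := d) (q := q) (ρ := ρ) (K := K) (by omega)
    (by push_cast at hq; exact hq) hρ
  refine ⟨C, hC, fun δ hδ hδ1 N u b e H => ?_⟩
  have h1 := h δ hδ hδ1 (Fin N) u b e Finset.univ
    ⟨H.norm_axis, fun i _ => H.norm_dir i, fun i _ => H.inner_pos i, fun i _ j _ => H.separated i j,
      fun i _ j _ => H.levels i j, fun i _ j _ => H.front i j⟩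
  rw [Finset.card_univ, Fintype.card_fin, ← mul_assoc] at h1
  refine le_trans (eLpNorm_mono_enorm fun y => ?_) h1
  simp only [enorm_eq_self]
  unfold Run7.h523.FT.Fn
  refine (enorm_sum_le _ _).trans (Finset.sum_le_sum fun i _ => ?_)
  by_cases hy : y ∈ tube (K * δ) (b i) (e i)
  · rw [indicator_of_mem hy, indicator_of_mem]
    · simp
    · refine ⟨⟪y - b i, e i⟫_ℝ, ?_, ?_⟩
      · rw [mem_Icc]
        have := abs_le.1 hy.1
        constructor <;> linarith
      · rw [← sub_sub]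
        exact hy.2
  · rw [indicator_of_notMem hy]
    simp

end Pool.Agent.Results.MP_850839_an.FrontTubes
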