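import Pool.Agent.Run7.h750.RS4

set_option autoImplicit false

/-!
# MP_850839: the Kakeya inequality for tubes shifted at random in a subspace of codimension two

Let `n ≥ 3`, take any family of `δ`-tubes in `ℝ^n` with `δ`-separated orientations and any
subspace of dimension `n - 2` (the range of a linear isometry `J : ℝ^(n-2) → ℝ^n`), and translate
the tubes by pairwise independent random vectors of this subspace, whose laws have densities at most
`A` with respect to Lebesgue measure of the subspace.  In `ℝ^3` the tubes are only moved along ONE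
fixed direction; in general the projections of the tubes to the orthogonal plane are not moved at
all.  On average over the translations:

1. the inequality of Q1 holds in the full range `q > n / (n - 1)`, without any loss;
2. for all `1 ≤ q ≤ 2`, in particular at and below the critical exponent `n / (n - 1)` and up to
   `q = 2`, the `q`-th power of the `L^q` norm of the sum is at most
   `C A (1 + log (1 + M))^2 δ^(n-1) M` for `M` tubes (for disjoint tubes it is `≈ δ^(n-1) M`);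
3. the measure of the union of the tubes is at least `c δ^(n-1) M / (A (1 + log (1 + M))^2)`.
-/

open MeasureTheory Set ProbabilityTheory
open scoped ENNReal

namespace Pool.Agent.Results.MP_850839_an.RandomShiftsCodimensionTwo

/-- `ℝ^n`. -/
abbrev E (n : ℕ) := EuclideanSpace ℝ (Fin n)

/-- The closed `δ`-tube (cylinder of length `1` and radius `δ`) with centre `a` and direction `e`. -/
def tube {n : ℕ} (δ : ℝ) (a e : E n) : Set (E n) :=
  {y | |inner ℝ (y - a) e| ≤ 1 / 2 ∧ ‖(y - a) - (inner ℝ (y - a) e : ℝ) • e‖ ≤ δ}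

/-- The number of the tubes with centres `b i` and directions `e i` which contain `x`. -/
noncomputable def count {n : ℕ} {ι : Type} [Fintype ι] (δ : ℝ) (b e : ι → E n) (x : E n) : ℝ≥0∞ :=
  ∑ i, (tube δ (b i) (e i)).indicator 1 x

/-- `e` is a `δ`-separated family of unit vectors, `0 < δ < 1`, and `X i` are pairwise independent
random vectors in `ℝ^k` whose laws are bounded by `A` times Lebesgue measure. -/
structure Setting (n k : ℕ) {Ω ι : Type} [MeasurableSpace Ω] (P : Measure Ω) (A δ : ℝ)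
    (e : ι → E n) (X : ι → Ω → E k) : Prop where
  one_le : 1 ≤ A
  pos : 0 < δ
  lt_one : δ < 1
  unit : ∀ i, ‖e i‖ = 1
  separated : ∀ i j, i ≠ j → δ ≤ ‖e i - e j‖
  measurable : ∀ i, Measurable (X i)
  density : ∀ i (B : Set (E k)), MeasurableSet B → P (X i ⁻¹' B) ≤ ENNReal.ofReal A * volume B
  indep : ∀ i j, i ≠ j → IndepFun (X i) (X j) P

/-- `𝔼 ∫ (∑ 1_{T_i + J X_i})^q`. -/
noncomputable def mean {n k : ℕ} {Ω ι : Type} [Fintype ι] [MeasurableSpace Ω] (P : Measure Ω)
    (q δ : ℝ) (J : E k →ₗᵢ[ℝ] E n) (a e : ι → E n) (X : ι → Ω → E k) : ℝ≥0∞ :=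
  ∫⁻ ω, (∫⁻ x, count δ (fun i => a i + J (X i ω)) e x ^ q) ∂P

/-- The inequality of Q1 on average, for all families and all isometries, with constant `C A`. -/
def QOne (n : ℕ) (q C : ℝ) : Prop :=
  ∀ (J : E (n - 2) →ₗᵢ[ℝ] E n) (Ω ι : Type) [MeasurableSpace Ω] [Fintype ι] (P : Measure Ω)
    [IsProbabilityMeasure P] (A δ : ℝ) (a e : ι → E n) (X : ι → Ω → E (n - 2)),
    Setting n (n - 2) P A δ e X →
    mean P q δ J a e X ≤ ENNReal.ofReal
      (C * A * (δ ^ (n - 1) * (Fintype.card ι : ℝ) ^ (q - 1 / ((n : ℝ) - 1))))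

/-- The bound of (2) for all exponents `1 ≤ q ≤ 2`. -/
def LogBound (n : ℕ) (C : ℝ) : Prop :=
  ∀ (J : E (n - 2) →ₗᵢ[ℝ] E n) (Ω ι : Type) [MeasurableSpace Ω] [Fintype ι] (P : Measure Ω)
    [IsProbabilityMeasure P] (A δ : ℝ) (a e : ι → E n) (X : ι → Ω → E (n - 2)),
    Setting n (n - 2) P A δ e X → ∀ q : ℝ, 1 ≤ q → q ≤ 2 →
    mean P q δ J a e X ≤ ENNReal.ofReal
      (C * A * (1 + Real.log (1 + Fintype.card ι)) ^ 2 * (δ ^ (n - 1) * Fintype.card ι))

/-- The lower bound for the mean measure of the union. -/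
def UnionBound (n : ℕ) (c : ℝ) : Prop :=
  ∀ (J : E (n - 2) →ₗᵢ[ℝ] E n) (Ω ι : Type) [MeasurableSpace Ω] [Fintype ι] (P : Measure Ω)
    [IsProbabilityMeasure P] (A δ : ℝ) (a e : ι → E n) (X : ι → Ω → E (n - 2)),
    Setting n (n - 2) P A δ e X →
    ENNReal.ofReal (c * (δ ^ (n - 1) * Fintype.card ι)) ≤
      ENNReal.ofReal (A * (1 + Real.log (1 + Fintype.card ι)) ^ 2) *
      ∫⁻ ω, volume (⋃ i, tube δ (a i + J (X i ω)) (e i)) ∂P

theorem mean_eq {m : ℕ} {Ω ι : Type} [Fintype ι] [MeasurableSpace Ω] (P : Measure Ω)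
    [IsProbabilityMeasure P] (q δ : ℝ) (J : E (m + 1) →ₗᵢ[ℝ] E (m + 3)) (a e : ι → E (m + 3))
    (X : ι → Ω → E (m + 1)) (hX : ∀ i, Measurable (X i)) :
    mean P q δ J a e X = ∫⁻ z, Run7.h750.RS.Sm J δ a e X z ^ q ∂(P.prod volume) := by
  rw [lintegral_prod _ ((Run7.h750.RS.Sm_meas J δ a e X hX).pow_const q).aemeasurable]
  unfold mean
  apply lintegral_congr
  intro ω
  apply lintegral_congr
  intro x
  congr 1
  unfold count Run7.h750.RS.Sm
  apply Finset.sum_congr rfl
  intro i _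
  unfold Run7.h750.RS.ind
  have h : x ∈ tube δ (a i + J (X i ω)) (e i) ↔ x - J (X i ω) ∈ Run7.h750.RS.tube δ (a i) (e i) := by
    have : x - J (X i ω) - a i = x - (a i + J (X i ω)) := by abel
    unfold tube Run7.h750.RS.tube
    simp only [mem_ofPred_eq, this]
  by_cases hx : x ∈ tube δ (a i + J (X i ω)) (e i)
  · rw [indicator_of_mem hx, indicator_of_mem (h.1 hx)]; rfl
  · rw [indicator_of_notMem hx, indicator_of_notMem (fun h' => hx (h.2 h'))]

/-- **The Kakeya inequality for tubes shifted at random in a subspace of codimension two.** -/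
theorem result (n : ℕ) (hn : 3 ≤ n) :
    (∀ q : ℝ, (n : ℝ) / ((n : ℝ) - 1) < q → ∃ C : ℝ, 0 < C ∧ QOne n q C) ∧
    (∃ C : ℝ, 0 < C ∧ LogBound n C) ∧ (∃ c : ℝ, 0 < c ∧ UnionBound n c) := by
  obtain ⟨m, rfl⟩ : ∃ m, n = m + 3 := ⟨n - 3, by omega⟩
  have e1 : (((m + 3 : ℕ) : ℝ) - 1) = (m : ℝ) + 2 := by push_cast; ring
  have hdata : ∀ (J : E (m + 1) →ₗᵢ[ℝ] E (m + 3)) (Ω ι : Type) [MeasurableSpace Ω] [Fintype ι]
      (P : Measure Ω) (A δ : ℝ) (a e : ι → E (m + 3)) (X : ι → Ω → E (m + 1)),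
      Setting (m + 3) (m + 1) P A δ e X → Run7.h750.RS.Data m J Ω P ι A δ a e X :=
    fun J Ω ι _ _ P A δ a e X h => ⟨h.one_le, h.pos, h.lt_one, h.unit, h.separated, h.measurable,
      h.density, h.indep⟩
  refine ⟨?_, ?_, ?_⟩
  · intro q hq
    rw [e1] at hq
    have hq' : ((m : ℝ) + 3) / ((m : ℝ) + 2) < q := by
      have : (((m + 3 : ℕ) : ℝ)) = (m : ℝ) + 3 := by push_cast; ring
      rwa [this] at hq
    obtain ⟨C, hC, h⟩ := Run7.h750.RS.full m q hq'
    refine ⟨C, hC, ?_⟩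
    intro J Ω ι _ _ P _ A δ a e X hs
    rw [e1]
    have h1 := h J Ω P ι A δ a e X (hdata J Ω ι P A δ a e X hs)
    rw [← mean_eq P q δ J a e X hs.measurable] at h1
    exact h1
  · obtain ⟨C, hC, h⟩ := Run7.h750.RS.Lq m
    refine ⟨C, hC, ?_⟩
    intro J Ω ι _ _ P _ A δ a e X hs q hq1 hq2
    have h1 := h J Ω P ι A δ a e X (hdata J Ω ι P A δ a e X hs) q hq1 hq2
    rw [← mean_eq P q δ J a e X hs.measurable] at h1
    exact h1
  · obtain ⟨c, hc, h⟩ := Run7.h750.RS.union m
    refine ⟨c, hc, ?_⟩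
    intro J Ω ι _ _ P _ A δ a e X hs
    exact h J Ω P ι A δ a e X (hdata J Ω ι P A δ a e X hs)

end Pool.Agent.Results.MP_850839_an.RandomShiftsCodimensionTwo
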