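import Pool.Agent.Run7.h534.Kak.Tame

set_option autoImplicit false

/-!
# MP_850839: the tube inequality, in the full range and without loss, for the tubes of definable
(tame) classes of lines

Work in `ℝ^n = ℝ^d × ℝ`, `n = d + 1 ≥ 2`, with its Euclidean norm (`Space d`).  A line with
direction `dir v = (v, 1)/|(v, 1)|` meets the hyperplane of height `0` in a point `(x, 0)`, its
*position*; the tube `i` of a family has the direction `dir (v i)`, the position `β i`, and its
centre has height `h i`.

Let an o-minimal expansion of the field of real numbers be given (for instance the real field itself,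
the field with restricted analytic functions, the field with the exponential function or with all
Pfaffian functions), and a definable family of classes of lines: for each parameter `s ∈ ℝ^m` a set of
lines, such that the relation between the parameter and the line is definable.  The classes may have
several lines in one direction and none in another one, and they may be discontinuous and arbitrarily
steep: they are not supposed to be Lipschitz.  There is a number `N`, depending on the definable
family only, such that for all parameters `s` and all exponents `q > n/(n-1)` the inequality of the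
problem holds, without any loss in `δ` and with the conjectured dependence on the number of tubes,
with a constant `C N ...`, where `C` depends on `n` and `q` only,

* for the families of `δ`-tubes with `δ`-separated orientations such that, for a proportion at least
  `θ > 0` of the directions at distance `< δ/2` of the one of the tube, some of the finitely many
  lines of the class with that direction is `K δ`-close to the axis of the tube;
* if the class is `Λ`-Lipschitz as a multi-valued function of the direction: for ALL families of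
  `δ`-tubes with `δ`-separated orientations whose axes are `K δ`-close to lines of the class (of the
  same direction).

In both cases the tubes may carry arbitrary coefficients `a i`; for `a i = 1` the last factor of the
bound is the power `(#T)^(1 - 1/(q(n-1)))` of the problem.  The parameter `s` may depend on `δ`.
-/

open MeasureTheory Set Filter Topology ENNReal NNReal Metric

namespace Pool.Agent.Results.MP_850839_an.TameClasses

universe u v

/-- Euclidean space `ℝ^d`. -/
abbrev Vec (d : ℕ) : Type := EuclideanSpace ℝ (Fin d)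

/-- Euclidean space `ℝ^{d+1}`, written as `ℝ^d × ℝ` with the Euclidean norm. -/
abbrev Space (d : ℕ) : Type := WithLp 2 (Vec d × ℝ)

/-- The closed tube of length `1` and radius `δ` with centre `a` and axis direction `e`. -/
def tube {d : ℕ} (δ : ℝ) (e a : Space d) : Set (Space d) :=
  {y | |inner ℝ (y - a) e| ≤ 1 / 2 ∧ ‖(y - a) - (inner ℝ (y - a) e : ℝ) • e‖ ≤ δ}

/-- The unit vector `(v, 1)/√(1+|v|²)`. -/
noncomputable def dir {d : ℕ} (v : Vec d) : Space d :=
  (√(1 + ‖v‖ ^ 2))⁻¹ • WithLp.toLp 2 (v, (1:ℝ))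

/-- The structure on `ℝ` is an o-minimal expansion of the field of real numbers: the order, the
addition and the multiplication are definable, and every definable set of real numbers is the union
of finitely many order connected sets, that is, of points and intervals.  (Definable means
definable with parameters.) -/
structure OMinimal (L : FirstOrder.Language.{u, v}) [L.Structure ℝ] : Prop where
  /-- the order is definable -/
  lt : (univ : Set ℝ).Definable L {x : Fin 2 → ℝ | x 0 < x 1}
  /-- the addition is definable -/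
  add : (univ : Set ℝ).Definable L {x : Fin 3 → ℝ | x 0 + x 1 = x 2}
  /-- the multiplication is definable -/
  mul : (univ : Set ℝ).Definable L {x : Fin 3 → ℝ | x 0 * x 1 = x 2}
  /-- definable sets of real numbers are finite unions of points and intervals -/
  finite_union : ∀ S : Set ℝ, (univ : Set ℝ).Definable L {x : Fin 1 → ℝ | x 0 ∈ S} →
    ∃ F : Set (Set ℝ), F.Finite ∧ (∀ I ∈ F, I.OrdConnected) ∧ S = ⋃₀ F

/-- The positions of the lines of direction `(v, 1)` of the class with parameter `s`. -/
def lines {m d : ℕ} (G : Set (Fin m ⊕ Fin d ⊕ Fin d → ℝ)) (s : Fin m → ℝ) (v : Vec d) :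
    Set (Vec d) :=
  {x | (Sum.elim s (Sum.elim v.ofLp x.ofLp) : Fin m ⊕ Fin d ⊕ Fin d → ℝ) ∈ G}

/-- The directions `dir (v i)`, `|v i| ≤ 1`, are `δ`-separated, and the heights `h i` of the centres
are at most `S` in absolute value. -/
def Admissible {d : ℕ} {ι : Type} (S δ : ℝ) (v : ι → Vec d) (h : ι → ℝ) : Prop :=
  (∀ i, ‖v i‖ ≤ 1) ∧ (∀ i, |h i| ≤ S) ∧ ∀ i j, i ≠ j → δ ≤ ‖dir (v i) - dir (v j)‖

/-- The tube inequality in `L^q`, with the constant `A`, for the tubes with directions `dir (v i)`,
positions `β i` and centres of height `h i`, and all coefficients `a i`.  If all `a i` are `1`, the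
right hand side is `A δ^((n-1)/q) (#T)^(1 - 1/(q(n-1)))`, `n = d + 1`. -/
def TubeInequality {d : ℕ} {ι : Type} [Fintype ι] (q A δ : ℝ) (v β : ι → Vec d) (h : ι → ℝ) :
    Prop :=
  ∀ a : ι → ℝ, eLpNorm (fun y : Space d => ∑ i, (tube δ (dir (v i))
      (WithLp.toLp 2 (β i + h i • v i, h i))).indicator (fun _ => a i) y)
      (ENNReal.ofReal q) volume
    ≤ ENNReal.ofReal (A * δ ^ (d / q) *
      (∑ i, |a i| ^ (q * d / (q * d - 1))) ^ (1 - 1 / (q * d)))

/-- The tubes with directions `dir (v i)` and positions `β i` belong to the class `ℒ` of lines in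
proportion `θ`: for a proportion at least `θ` of the directions `w` at distance `< δ/2` of `v i` there
are only finitely many lines of direction `w` in the class, one of which is `K δ`-close to the
position of the tube. -/
def InProportion {d : ℕ} {ι : Type} (θ K δ : ℝ) (ℒ : Vec d → Set (Vec d)) (v β : ι → Vec d) :
    Prop :=
  ∀ i, ENNReal.ofReal θ * volume (ball (v i) (δ / 2)) ≤
    volume {w | ‖w - v i‖ < δ / 2 ∧ (ℒ w).Finite ∧ ∃ x ∈ ℒ w, ‖β i - x‖ ≤ K * δ}

/-- The class `ℒ` is `Λ`-Lipschitz near the unit ball, as a multi-valued function of the direction: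
if `x` is the position of a line of direction `v`, `|v| ≤ 1`, then in every direction `w`,
`|w - v| < 1/2`, there are only finitely many lines, and the position of one of them is at distance at
most `Λ |w - v|` of `x`. -/
def LipschitzClass {d : ℕ} (Λ : ℝ) (ℒ : Vec d → Set (Vec d)) : Prop :=
  ∀ v w : Vec d, ‖v‖ ≤ 1 → ‖w - v‖ < 1 / 2 → (ℒ w).Finite ∧
    ∀ x ∈ ℒ v, ∃ x' ∈ ℒ w, ‖x - x'‖ ≤ Λ * ‖w - v‖

/-- **The tube inequality for definable classes of lines**, in the full range `q > n/(n-1)`,
`n = d + 1`, without any loss in `δ`. -/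
theorem result (d : ℕ) (hd : 1 ≤ d) : ∃ C : ℝ → ℝ, (∀ q, 0 < C q) ∧
    ∀ (L : FirstOrder.Language.{u, v}) [L.Structure ℝ], OMinimal L →
      ∀ (m : ℕ) (G : Set (Fin m ⊕ Fin d ⊕ Fin d → ℝ)), (univ : Set ℝ).Definable L G →
      ∃ N : ℕ, ∀ (s : Fin m → ℝ) (q : ℝ), ((d : ℝ) + 1) / d < q →
        ∀ (K S : ℝ≥0) (δ : ℝ), 0 < δ → δ < 1 →
        ∀ (ι : Type) [Fintype ι] (v β : ι → Vec d) (h : ι → ℝ), Admissible S δ v h →
        (∀ θ : ℝ, 0 < θ → InProportion θ K δ (lines G s) v β →
          TubeInequality q (C q * N * θ ^ (-(1 / (q * d))) * (1 + K + S) ^ ((d + 1) / q)) δ v β h) ∧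
        (∀ Λ : ℝ≥0, LipschitzClass Λ (lines G s) →
          (∀ i, ∃ x ∈ lines G s (v i), ‖β i - x‖ ≤ K * δ) →
          TubeInequality q (C q * N * (1 + K + Λ + S) ^ ((d + 1) / q)) δ v β h) := by
  refine ⟨Run7.h534.Kak.cT d, Run7.h534.Kak.cT_pos d, ?_⟩
  intro L _ hL m G hG
  have : Run7.h860.Om.OMin L := ⟨hL.lt, hL.add, hL.mul, hL.finite_union⟩
  open Run7.h860.Om Run7.h860.Kk in
  have hGD : DPred L (fun z : Fin m ⊕ Fin d ⊕ Fin d → ℝ => z ∈ G) := hG
  have helim : Run7.h860.Om.DFun L (fun p : ((Fin m → ℝ) × (Fin d → ℝ)) × (Fin d → ℝ) =>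
      (Sum.elim p.1.1 (Sum.elim p.1.2 p.2) : Fin m ⊕ Fin d ⊕ Fin d → ℝ)) := by
    refine Run7.h860.Om.DFun.pi fun i => ?_
    rcases i with i | i | i
    · simp only [Sum.elim_inl]; fun_prop
    · simp only [Sum.elim_inl, Sum.elim_inr]; fun_prop
    · simp only [Sum.elim_inr]; fun_prop
  set Q : Set (((Fin m → ℝ) × (Fin d → ℝ)) × (Fin d → ℝ)) :=
    {p | (Sum.elim p.1.1 (Sum.elim p.1.2 p.2) : Fin m ⊕ Fin d ⊕ Fin d → ℝ) ∈ G} with hQ
  have hQD : Run7.h860.Om.DPred L (fun p => p ∈ Q) := hGD.mem helim
  obtain ⟨K₀, g, hg, -, hgK⟩ := Run7.h860.Om.exists_branches (L := L) hQD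
  obtain ⟨N, hN⟩ := Run7.h534.Kak.tubes_branches (L := L) (Γ := Fin m → ℝ) hd K₀ hg
  have main : ∀ (s : Fin m → ℝ) (q : ℝ), ((d : ℝ) + 1) / d < q → ∀ (K S : ℝ≥0) (δ : ℝ), 0 < δ →
      δ < 1 → ∀ (ι : Type) [Fintype ι] (v β : ι → Vec d) (h : ι → ℝ), Admissible S δ v h →
      ∀ θ : ℝ, 0 < θ → InProportion θ K δ (lines G s) v β →
      TubeInequality q (Run7.h534.Kak.cT d q * N * θ ^ (-(1 / (q * d))) *
        (1 + K + S) ^ ((d + 1) / q)) δ v β h := by
    intro s q hq K S δ hδ hδ1 ι _ v β h hA θ hθ hP a
    refine hN s q hq K S θ δ hθ hδ hδ1 ι v β h a hA.1 hA.2.1 hA.2.2 ?_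
    intro i
    refine (hP i).trans (measure_mono ?_)
    rintro w ⟨hw1, hw2, x, hx, hx2⟩
    refine ⟨hw1, ?_⟩
    have hfin : {z | ((s, w.ofLp), z) ∈ Q}.Finite := by
      refine (hw2.image (fun z : Vec d => z.ofLp)).subset ?_
      intro z hz
      exact ⟨WithLp.toLp 2 z, hz, rfl⟩
    obtain ⟨k, hk, hxk⟩ := hgK (s, w.ofLp) hfin x.ofLp hx
    refine ⟨k, hk, ?_⟩
    have hxx : Run7.h860.Kk.lift (fun v => g k (s, v)) w = x := by
      show (WithLp.toLp 2 (g k (s, w.ofLp)) : Vec d) = x
      rw [← hxk]
    rw [hxx]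
    exact hx2
  refine ⟨N, ?_⟩
  intro s q hq K S δ hδ hδ1 ι _ v β h hA
  refine ⟨main s q hq K S δ hδ hδ1 ι v β h hA, ?_⟩
  intro Λ hΛ hβ
  have h1 := main s q hq (K + Λ) S δ hδ hδ1 ι v β h hA 1 one_pos (by
    intro i
    rw [ENNReal.ofReal_one, one_mul]
    refine measure_mono ?_
    intro w hw
    rw [mem_ball, dist_eq_norm] at hw
    obtain ⟨x, hx, hx2⟩ := hβ i
    obtain ⟨h2, h3⟩ := hΛ (v i) w (hA.1 i) (by linarith)
    obtain ⟨x', hx', hx'2⟩ := h3 x hx
    refine ⟨hw, h2, x', hx', ?_⟩
    have h4 : (Λ : ℝ) * ‖w - v i‖ ≤ Λ * δ := by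
      have : (0 : ℝ) ≤ Λ := Λ.2
      have : ‖w - v i‖ ≤ δ := by linarith
      gcongr
    calc ‖β i - x'‖ = ‖(β i - x) + (x - x')‖ := by congr 1; abel
      _ ≤ ‖β i - x‖ + ‖x - x'‖ := norm_add_le _ _
      _ ≤ K * δ + Λ * δ := by linarith
      _ = ((K + Λ : ℝ≥0) : ℝ) * δ := by push_cast; ring)
  intro a
  refine (h1 a).trans (ENNReal.ofReal_le_ofReal (le_of_eq ?_))
  rw [Real.one_rpow]
  push_cast
  ring_nf

end Pool.Agent.Results.MP_850839_an.TameClasses
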