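import Pool.Agent.Run7.h534.Cv.Fin

set_option autoImplicit false

/-!
# MP_850839: the tube inequality, in the full range and without loss, for tubes that meet a curve of
finite order

Let `n ≥ 3`.  A continuous curve `γ : ℝ → ℝ^n` is of order at most `N` if for every `ν ≠ 0` almost
every hyperplane orthogonal to `ν` meets it at most `N` times; for instance lines, and (up to finitely
many pieces) the real algebraic curves of bounded degree and the Pfaffian curves.

Fix numbers `m`, `N`, `K`, `S` and any exponent `q > n/(n-1)`.  There is a constant `C` such that the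
inequality of the problem,

`‖∑_T 1_T‖_q ≤ C δ^((n-1)/q) (#𝒯)^(1 - 1/(q(n-1)))`,

holds for all `0 < δ < 1` and all finite sets `𝒯` of `δ`-tubes with `δ`-separated orientations, with
any centres, such that the axis of each tube passes at distance at most `K δ` of some point of the
union of `m` curves of order at most `N`, this point being at distance at most `S`, along the axis,
from the centre of the tube.  The curves may depend on `δ`.  The tubes may pass all through the same
point of the curves or through different points; nothing else is supposed on them.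
-/

open MeasureTheory Set Filter Topology ENNReal NNReal Metric

namespace Pool.Agent.Results.MP_850839_an.TubesMeetingCurve

/-- Euclidean space `ℝ^n`. -/
abbrev Space (n : ℕ) : Type := EuclideanSpace ℝ (Fin n)

/-- The closed tube of length `1` and radius `δ` with centre `a` and axis direction `e`. -/
def tube {n : ℕ} (δ : ℝ) (a e : Space n) : Set (Space n) :=
  {y | |inner ℝ (y - a) e| ≤ 1 / 2 ∧ ‖(y - a) - (inner ℝ (y - a) e : ℝ) • e‖ ≤ δ}

/-- The curve `γ` is continuous and of order at most `N`: for every `ν ≠ 0`, almost every hyperplane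
orthogonal to `ν` meets the curve at most `N` times. -/
def CurveOfOrder {n : ℕ} (N : ℕ) (γ : ℝ → Space n) : Prop :=
  Continuous γ ∧ ∀ ν : Space n, ν ≠ 0 → ∀ᵐ c : ℝ, {t : ℝ | inner ℝ ν (γ t) = c}.encard ≤ N

/-- A finite set of tubes, each given by its centre and its orientation, with `δ`-separated
orientations. -/
def Separated {n : ℕ} (δ : ℝ) (T : Finset (Space n × Space n)) : Prop :=
  (∀ p ∈ T, ‖p.2‖ = 1) ∧ ∀ p ∈ T, ∀ p' ∈ T, p ≠ p' → δ ≤ ‖p.2 - p'.2‖

/-- The axis of the tube `p` (centre `p.1`, orientation `p.2`) passes at distance at most `κ` of the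
point `x`, at distance at most `S` along the axis from the centre. -/
def PassesNear {n : ℕ} (S κ : ℝ) (p : Space n × Space n) (x : Space n) : Prop :=
  |inner ℝ (p.1 - x) p.2| ≤ S ∧ ‖(p.1 - x) - (inner ℝ (p.1 - x) p.2 : ℝ) • p.2‖ ≤ κ

/-- **The tube inequality for tubes that meet curves of finite order**, in the full range
`q > n/(n-1)` and without any loss in `δ`. -/
theorem result (n : ℕ) (hn : 3 ≤ n) (q : ℝ) (hq : (n : ℝ) / (n - 1) < q) (m N : ℕ) (K S : ℝ)
    (hK : 0 ≤ K) (hS : 0 ≤ S) :
    ∃ C : ℝ, 0 < C ∧ ∀ γ : Fin m → ℝ → Space n, (∀ k, CurveOfOrder N (γ k)) →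
      ∀ δ : ℝ, 0 < δ → δ < 1 → ∀ T : Finset (Space n × Space n), Separated δ T →
      (∀ p ∈ T, ∃ k t, PassesNear S (K * δ) p (γ k t)) →
      eLpNorm (fun y => ∑ p ∈ T, (tube δ p.1 p.2).indicator (fun _ => (1 : ℝ)) y)
          (ENNReal.ofReal q) volume
        ≤ ENNReal.ofReal (C * δ ^ (((n : ℝ) - 1) / q) *
          (T.card : ℝ) ^ (1 - 1 / (q * ((n : ℝ) - 1)))) := by
  obtain ⟨d, rfl⟩ : ∃ d, n = d + 1 := ⟨n - 1, by omega⟩
  have hd : 2 ≤ d := by omega
  have hd0 : (2:ℝ) ≤ d := by exact_mod_cast hd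
  have hdpos : (0:ℝ) < d := by linarith
  have hcast : ((d + 1 : ℕ) : ℝ) - 1 = d := by push_cast; ring
  rw [hcast] at hq ⊢
  have hq2 : 1 + 1 / (d:ℝ) < q := by
    refine lt_of_le_of_lt (le_of_eq ?_) hq
    push_cast
    field_simp
  have hd1 : (0:ℝ) < 1 / d := by positivity
  have hq0 : 0 < q := by linarith
  obtain ⟨C, hC, h⟩ := Run7.h534.Cv.curve_tubes hd hq2 m N hK hS
  refine ⟨C.toReal + 1, by positivity, ?_⟩
  intro γ hγ δ hδ hδ1 T hT hnear
  have h1 := h γ (fun k => (hγ k).1) (fun k => (hγ k).2) δ hδ hδ1.le T hT.1 hT.2 hnear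
  have e1 : ∀ y : Space (d + 1), ‖∑ p ∈ T, (tube δ p.1 p.2).indicator (fun _ => (1 : ℝ)) y‖ₑ
      = Run7.h534.Cv.Fs T (fun p => Run7.h534.Cv.Tub δ p.1 p.2) y := by
    intro y
    have hnn : ∀ p ∈ T, 0 ≤ (tube δ p.1 p.2).indicator (fun _ => (1 : ℝ)) y :=
      fun p _ => indicator_nonneg (fun _ _ => zero_le_one) y
    rw [Real.enorm_of_nonneg (Finset.sum_nonneg hnn), ENNReal.ofReal_sum_of_nonneg hnn]
    unfold Run7.h534.Cv.Fs
    refine Finset.sum_congr rfl fun p _ => ?_
    by_cases hy : y ∈ tube δ p.1 p.2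
    · rw [indicator_of_mem hy, indicator_of_mem (s := Run7.h534.Cv.Tub δ p.1 p.2) hy,
        ENNReal.ofReal_one]
    · rw [indicator_of_notMem hy, indicator_of_notMem (s := Run7.h534.Cv.Tub δ p.1 p.2) hy,
        ENNReal.ofReal_zero]
  rw [eLpNorm_eq_lintegral_rpow_enorm_toReal (by simpa using hq0) ENNReal.ofReal_ne_top,
    ENNReal.toReal_ofReal hq0.le]
  simp_rw [e1]
  refine h1.trans ?_
  have hM : (0:ℝ) ≤ T.card := Nat.cast_nonneg _
  rw [ENNReal.ofReal_rpow_of_nonneg (by positivity) (by positivity),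
    Real.mul_rpow (by positivity) (by positivity), ← Real.rpow_natCast, ← Real.rpow_mul hδ.le,
    ← Real.rpow_mul hM, mul_assoc (C.toReal + 1)]
  have e2 : (d:ℝ) * (1 / q) = d / q := by ring
  have e3 : (q - 1 / d) * (1 / q) = 1 - 1 / (q * d) := by field_simp
  have e4 : ∀ a : ℝ, ENNReal.ofReal ((C.toReal + 1) * a)
      = ENNReal.ofReal (C.toReal + 1) * ENNReal.ofReal a := fun a =>
    ENNReal.ofReal_mul (by positivity)
  rw [e2, e3, e4]
  gcongr
  rw [ENNReal.ofReal_add ENNReal.toReal_nonneg zero_le_one, ENNReal.ofReal_toReal hC]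
  exact le_self_add

end Pool.Agent.Results.MP_850839_an.TubesMeetingCurve
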